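import Pool.Agent.H705R3.BSD.Fin2

/-!
# Averaged products of Birch and Swinnerton-Dyer: a criterion for the Riemann hypothesis together
# with the rank form

Birch and Swinnerton-Dyer conjectured originally that `EP(x) = ∏_{p ≤ x} #C(𝔽_p) / p` grows like a
constant times `(log x) ^ r`, `r` the rank of `C(ℚ)`. Goldfeld (1982) proved that such an asymptotic
formula implies the Riemann hypothesis for `L(C, s)` and `r = ord_{s=1} L(C, s)`. The converse is
open: the pointwise asymptotic formula needs more than the Riemann hypothesis. Here the formula is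
averaged logarithmically, and then both directions hold, for every elliptic curve
`C : y² = x³ + a x + b` over `ℚ`. Let `MR(x)` be the quotient of `∑_{n ≤ x} log EP(n) / n` and
`∑_{n ≤ x} log log n / n`, and `LA_κ(x)` the logarithmic average of `log EP(n) - κ log log n`.

I. Nothing is assumed about `L(C, s)`: if `MR(x) → κ` then `L(C, s)` continues to a holomorphic
function without zeros in `Re s > 1` and `log |L(C, 1 + σ)| / log σ → κ` for `σ → 0+`; if the
averages `LA_κ` are bounded then `log |L(C, s)| = κ log |s - 1| + O(1)` for `s → 1` in every angle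
`|s - 1| ≤ T (Re s - 1)`, with the error `O(T ^ 2)`.

II. Let `F` be the entire continuation of `L(C, s)`, of polynomial growth in `Re s ≥ 1`, and
`m = ord_{s=1} L(C, s)`. Then for every real `κ`:

1. the Riemann hypothesis for `L(C, s)` and `m = κ` hold if and only if the averages `LA_κ` are
bounded, and if and only if `MR(x) → κ`;

2. the Riemann hypothesis and `m ≤ κ` hold if and only if these averages are bounded above, and if
and only if the upper limit of `MR(x)` is at most `κ`; similarly for lower bounds, if `F` has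
no real zero greater than `1`;

3. if moreover the first theorem of Mertens holds for `a_p² / p` (Rankin-Selberg), the Riemann
hypothesis and `m = κ` hold if and only if the averages `LA_κ` converge, and then the limit is the
logarithm of Goldfeld's constant `√2 e ^ (κ γ) / |l|`.

For `κ = rank C(ℚ)` this says: the Riemann hypothesis for `L(C, s)` and the conjecture of Birch and
Swinnerton-Dyer (rank form) for `C` hold if and only if the averaged original form holds for `C`.

For `y² = x³ - D² x`, `D` odd and squarefree, the assumptions of II are proved in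
`CongruentAverages` (helper814).

Proof: I and the directions of II from the averages are based on Abel summation (twice) and
Landau's theorem (`main` of helper438, `OneSidedProducts`). For the other
direction the averages are written as `(1 / 2π) ∫ k(τ) Re H((1 + iτ) / U) dτ`, with
`k(τ) = O(1 / (1 + τ²))`, and under the Riemann hypothesis `Re H` is bounded near `0` up to
logarithms of `τ`, and its integral against `1 / (1 + t²)` is bounded by positivity (Poisson formula
for the half plane). Library: project H814-BSD of helper814.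
-/

set_option autoImplicit false

open Complex Filter Topology

namespace Pool.Agent.Results.MP_696deb_nt.AveragedProducts

open Pool.Agent.H438R3.BSD Pool.Agent.H814R3.BSD Pool.Agent.H705R3.BSD

/-- I: if `MR → κ` then the Euler product has a continuation `G` to `Re s > 1`, without zeros, with
`log |G (1 + σ)| / log σ → κ`, and bounded averages `LA κ` give the size of `G` near `1` in angles.
II: the equivalences for the entire continuation `F`; the last one is for the rank. -/
theorem result (a b : ℤ) (hab : 4 * a ^ 3 + 27 * b ^ 2 ≠ 0) :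
    (∀ κ : ℝ, Tendsto (MR a b) atTop (𝓝 κ) →
      ∃ G : ℂ → ℂ, IsG a b G ∧
        Tendsto (fun σ : ℝ => Real.log ‖G (1 + σ)‖ / Real.log σ) (𝓝[>] 0) (𝓝 κ) ∧
        ((∃ C : ℝ, ∀ x : ℕ, |LA a b κ x| ≤ C) → ∃ C : ℝ, ∀ s : ℂ, 1 < s.re → ‖s - 1‖ ≤ 1 →
          |Real.log ‖G s‖ - κ * Real.log ‖s - 1‖| ≤ C * (‖s - 1‖ / (s.re - 1)) ^ 2)) ∧
    (∀ F : ℂ → ℂ, IsL a b F →
      (∃ A K : ℝ, ∀ s : ℂ, 1 ≤ s.re → ‖F s‖ ≤ A * (1 + ‖s‖) ^ K) →
      ∃ (m : ℕ) (l : ℂ), analyticOrderAt F 1 = m ∧ l ≠ 0 ∧
      Tendsto (fun s : ℂ => F s / (s - 1) ^ m) (𝓝[≠] 1) (𝓝 l) ∧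
      (∀ κ : ℝ, List.TFAE [
        (∀ s : ℂ, 1 < s.re → F s ≠ 0) ∧ m = κ,
        ∃ C : ℝ, ∀ x : ℕ, |LA a b κ x| ≤ C,
        Tendsto (MR a b) atTop (𝓝 κ)]) ∧
      (∀ κ : ℝ, List.TFAE [
        (∀ s : ℂ, 1 < s.re → F s ≠ 0) ∧ m ≤ κ,
        ∃ C : ℝ, ∀ x : ℕ, LA a b κ x ≤ C,
        ∀ ε : ℝ, 0 < ε → ∀ᶠ x : ℕ in atTop, MR a b x ≤ κ + ε]) ∧
      ((∀ σ : ℝ, 1 < σ → F σ ≠ 0) → ∀ κ : ℝ, List.TFAE [
        (∀ s : ℂ, 1 < s.re → F s ≠ 0) ∧ κ ≤ m,
        ∃ C : ℝ, ∀ x : ℕ, -C ≤ LA a b κ x,
        ∀ ε : ℝ, 0 < ε → ∀ᶠ x : ℕ in atTop, κ - ε ≤ MR a b x]) ∧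
      (RS a b → ∀ κ : ℝ, List.TFAE [
        (∀ s : ℂ, 1 < s.re → F s ≠ 0) ∧ m = κ,
        ∃ t : ℝ, Tendsto (fun x : ℕ => LA a b κ x) atTop (𝓝 t),
        Tendsto (fun x : ℕ => LA a b κ x) atTop
          (𝓝 (Real.log (√2 * Real.exp (κ * Real.eulerMascheroniConstant) / ‖l‖)))]) ∧
      List.TFAE [
        (∀ s : ℂ, 1 < s.re → F s ≠ 0) ∧ analyticOrderAt F 1 = (rk a b : ℕ∞),
        ∃ C : ℝ, ∀ x : ℕ, |LA a b (rk a b) x| ≤ C,
        Tendsto (MR a b) atTop (𝓝 (rk a b))]) :=
  ⟨fun κ h => free_all a b κ h, fun F hF hgr => final a b hab F hF hgr⟩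

end Pool.Agent.Results.MP_696deb_nt.AveragedProducts
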