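import Pool.Agent.H814R3.BSD.Fin

/-!
# The averaged form of the original conjecture of Birch and Swinnerton-Dyer for the congruent
number curves

Birch and Swinnerton-Dyer conjectured originally that `∏_{p ≤ x} #C(𝔽_p) / p ~ A (log x) ^ r` with
`r` the rank of `C(ℚ)`. Goldfeld proved that such an asymptotic formula implies the Riemann
hypothesis for `L(C, s)`, `r = ord_{s=1} L(C, s)` and `A = √2 e ^ (r γ) / ℓ`, where `ℓ` is the
leading coefficient of `L(C, s)` at `s = 1`; the converse is not known, the asymptotic formula is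
more than the Riemann hypothesis.

Here the logarithmic averages `LA κ n` of `log EP(k) - κ log log k`, `k ≤ n`, are considered, for the
congruent number curves `E_D : y² = x³ - D² x`, `D` odd and squarefree. Nothing is assumed: the
continuation of `L(E_D, s)` and the bounds for it are proved. The following are equivalent for
every real `κ`: the Riemann hypothesis holds for `L(E_D, s)` and `ord_{s=1} L(E_D, s) = κ`; the
averages are bounded; they converge; they converge to the logarithm of Goldfeld's constant.
For `κ = rank E_D(ℚ)` this says that the averaged form of the original conjecture holds for `E_D` if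
and only if the rank form and the Riemann hypothesis hold.

Proof: the averages are `(1 / 2π) ∫ k(τ) Re H((1 + iτ) / U) dτ`, `U = log n`, with an explicit kernel
`k(τ) = O(1 / (1 + τ²))`, where `H` is built from the logarithm of `L(E_D, 1 + w)`; under the Riemann
hypothesis the integrals of `|Re H(σ + it)| / (1 + t²)` are `O(1 + log(1 / σ))` by positivity
(half plane Poisson formula), and `Re H` tends to a limit at `0` by the Rankin-Selberg mean value.
The other direction is the theorem of helper438 (`OneSidedProducts`).

Pieces by helper853, helper531, helper759, helper676, helper492, helper790, helper165, helper99,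
helper471, helper612, helper988, helper41, helper182, helper214, helper446, helper798 (project
H814-BSD); library of helper438 and of the starting files H304R2/EC, H385R2, H341R2.
-/

set_option autoImplicit false

open Complex Filter Topology

namespace Pool.Agent.Results.MP_696deb_nt.CongruentAverages

open Pool.Agent.H438R3.BSD

/-- the rank of the group of rational points of `y² = x³ - D² x` -/
noncomputable def rk (D : ℕ) : ℕ :=
  Module.finrank ℤ (WeierstrassCurve.Affine.Point (WeierstrassCurve.toAffine
    ({ a₁ := 0, a₂ := 0, a₃ := 0, a₄ := -(D : ℚ) ^ 2, a₆ := 0 } : WeierstrassCurve ℚ)))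

/-- Let `D` be odd and squarefree. The Euler product of `E_D : y² = x³ - D² x` extends to an entire
function `F`, with order `m` and leading coefficient `l` at `s = 1`. For every real `κ` the
following are equivalent: (1) `F` has no zero with `Re s > 1` and `κ = m`; (2) `κ ≤ m` and the
logarithmic averages `LA κ n` of `log EP - κ log log` are bounded above; (3) they are bounded;
(4) they converge; (5) they converge to `log (√2 e ^ (κ γ) / |l|)`. In particular, with the
rank `r` of `E_D(ℚ)`: the averages for `κ = r` converge if and only if the Riemann hypothesis and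
the conjecture `ord_{s=1} L(E_D, s) = r` hold. -/
theorem result (D : ℕ) (hD : Odd D) (hsf : Squarefree D) :
    ∃ F : ℂ → ℂ, IsL (-(D : ℤ) ^ 2) 0 F ∧
      ∃ (m : ℕ) (l : ℂ), analyticOrderAt F 1 = m ∧ l ≠ 0 ∧
      Tendsto (fun s : ℂ => F s / (s - 1) ^ m) (𝓝[≠] 1) (𝓝 l) ∧
      (∀ κ : ℝ, List.TFAE [
        (∀ s : ℂ, 1 < s.re → F s ≠ 0) ∧ κ = m,
        κ ≤ m ∧ ∃ K : ℝ, ∀ n : ℕ, LA (-(D : ℤ) ^ 2) 0 κ n ≤ K,
        ∃ K : ℝ, ∀ n : ℕ, |LA (-(D : ℤ) ^ 2) 0 κ n| ≤ K,
        ∃ t : ℝ, Tendsto (fun n : ℕ => LA (-(D : ℤ) ^ 2) 0 κ n) atTop (𝓝 t),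
        Tendsto (fun n : ℕ => LA (-(D : ℤ) ^ 2) 0 κ n) atTop
          (𝓝 (Real.log (√2 * Real.exp (κ * Real.eulerMascheroniConstant) / ‖l‖)))]) ∧
      ((∃ t : ℝ, Tendsto (fun n : ℕ => LA (-(D : ℤ) ^ 2) 0 (rk D) n) atTop (𝓝 t)) ↔
        (∀ s : ℂ, 1 < s.re → F s ≠ 0) ∧ analyticOrderAt F 1 = (rk D : ℕ∞)) := by
  obtain ⟨F, hF, m, l, hm, hl, ht, h⟩ := Pool.Agent.H814R3.BSD.congruent D hD hsf
  refine ⟨F, hF, m, l, hm, hl, ht, fun κ => ?_, ?_⟩
  · have e : Real.log (√2 * Real.exp (κ * Real.eulerMascheroniConstant) / ‖l‖) =
        Real.log 2 / 2 + κ * Real.eulerMascheroniConstant - Real.log ‖l‖ := by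
      have h2 : (√2 : ℝ) ≠ 0 := by positivity
      have hl' : ‖l‖ ≠ 0 := norm_ne_zero_iff.2 hl
      rw [Real.log_div (mul_ne_zero h2 (Real.exp_ne_zero _)) hl',
        Real.log_mul h2 (Real.exp_ne_zero _), Real.log_exp, Real.log_sqrt (by norm_num)]
    rw [e]
    exact h κ
  · have h1 := (h (rk D)).out 3 0
    rw [h1, hm]
    constructor
    · rintro ⟨a1, a2⟩
      exact ⟨a1, by
        have : rk D = m := by exact_mod_cast a2
        rw [this]⟩
    · rintro ⟨a1, a2⟩
      refine ⟨a1, ?_⟩
      have : m = rk D := by exact_mod_cast a2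
      rw [this]

end Pool.Agent.Results.MP_696deb_nt.CongruentAverages
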