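import Pool.Agent.H120R3.BsdU

/-!
# Real linear forms in the logarithms of the products of Birch and Swinnerton-Dyer

Birch and Swinnerton-Dyer measured the number of points modulo the primes of an elliptic curve `C`
over `ℚ` by the products `EP(x) = ∏_{p ≤ x} #C(𝔽_p) / p` over the good primes, and expected
that `log EP(x)` is about `r log log x`, with `r` the rank. Here finitely many curves `Cᵢ` are
treated jointly. Let `Fᵢ` be the entire continuation of `L(Cᵢ, s)` and `mᵢ = ord_{s=1} Fᵢ`.

(A) Let `wᵢ` be real numbers with `∑ wᵢ ord_σ Fᵢ ≥ 0` for every real `σ > 1` (this is no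
condition if all `wᵢ ≥ 0`, or if no `Fᵢ` has a real zero larger than `1`). If
`∏ EPᵢ(x) ^ wᵢ = O((log x) ^ κ)`, or if this holds only for the logarithmic averages of the
logarithms, then `∑ wᵢ ord_ρ Fᵢ = 0` for every `ρ` with `Re ρ > 1`, and `∑ wᵢ mᵢ ≤ κ`.

(B) If no `Fᵢ` has a real zero larger than `1`, then the vector `(mᵢ)` of the analytic ranks lies in
every closed convex set which contains, for all large `x`, the vector `(log EPᵢ(x) / log log x)`, or,
for all large `x`, the vector of the quotients of the averages of `log EPᵢ` and of `log log`.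

For positive weights (A) says that an upper bound for one product over all the curves implies the
Riemann hypothesis for all the `L(Cᵢ, s)`, and bounds the weighted sum of the analytic ranks. For
weights which are linearly independent over `ℚ` the conclusion on the zeros is that no `Fᵢ` has a
zero with real part larger than `1`. One curve with `w = ±1` is `OneSidedProducts` (helper438),
two curves with `w = (1, -1)` is `PointComparison` (helper234); their libraries are used.

Proof: if the averages are bounded then there is a Dirichlet series `D` with nonnegative coefficients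
and a function `W`, holomorphic for `Re s > 1`, such that `H = W + (s - 1)² D` satisfies
`H' = ∑ wᵢ Fᵢ' / Fᵢ`. At the real point `a` of the line of absolute convergence of `D`, if `a > 1`,
the positivity of `D` gives `∑ wᵢ ord_a Fᵢ ≤ 0`, so this sum is `0`, the right side is
holomorphic at `a`, and its primitive continues `D`, which contradicts Landau's theorem. So `H` is
holomorphic for `Re s > 1`, the residues `∑ wᵢ ord_ρ Fᵢ` vanish there, and at `s = 1` the
positivity of `D` gives `∑ wᵢ mᵢ ≤ κ`. (B) follows from (A) by separation of convex sets.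
-/

set_option autoImplicit false

open Filter

namespace Pool.Agent.Results.MP_696deb_nt.JointProducts

open Pool.Agent.H438R3.BSD Pool.Agent.H120R3.BsdReal

/-- Let `Cᵢ : y² = x³ + aᵢ x + bᵢ`, `i ∈ ι`, be finitely many elliptic curves over `ℚ`, and `Fᵢ` the
entire function which extends the (incomplete) `L`-series of `Cᵢ`. Then `Fᵢ` vanishes to a finite
order `mᵢ` at `s = 1`, and (A) and (B) of the introduction hold. -/
theorem result {ι : Type} [Fintype ι] (a b : ι → ℤ) (_hab : ∀ i, 4 * a i ^ 3 + 27 * b i ^ 2 ≠ 0)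
    (F : ι → ℂ → ℂ) (hF : ∀ i, IsL (a i) (b i) (F i)) :
    ∃ m : ι → ℕ, (∀ i, analyticOrderAt (F i) 1 = m i) ∧
    (∀ w : ι → ℝ,
      (∀ σ : ℝ, 1 < σ → 0 ≤ ∑ i, w i * (analyticOrderNatAt (F i) σ : ℝ)) →
      ∀ κ : ℝ, (κ < ∑ i, w i * m i ∨
        ∃ ρ : ℂ, 1 < ρ.re ∧ ∑ i, w i * (analyticOrderNatAt (F i) ρ : ℝ) ≠ 0) → ∀ C : ℝ,
      (∃ᶠ x : ℕ in atTop, C < RA a b w κ x) ∧
      ∃ᶠ x : ℕ in atTop, C * Real.log x ^ κ < RP a b w x) ∧
    ((∀ i, ∀ σ : ℝ, 1 < σ → F i σ ≠ 0) → ∀ K : Set (ι → ℝ), Convex ℝ K → IsClosed K →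
      ((∀ᶠ x : ℕ in atTop, PV a b x ∈ K) ∨ (∀ᶠ x : ℕ in atTop, AV a b x ∈ K)) →
      (fun i => (m i : ℝ)) ∈ K) :=
  mainJ a b F hF

end Pool.Agent.Results.MP_696deb_nt.JointProducts
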