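import Pool.Agent.H438R3.BSD.Main2

/-!
# The products of Birch and Swinnerton-Dyer are at least as large as the analytic rank predicts

Birch and Swinnerton-Dyer conjectured originally that `∏_{p ≤ x} #C(𝔽_p) / p` grows like a constant
times `(log x) ^ r`. Goldfeld proved that such an asymptotic formula implies the Riemann hypothesis
for `L(C, s)` and `r = ord_{s=1} L(C, s)`. Here one-sided and averaged versions are proved. With
`EP(x)` the product over the primes `p ≤ x` not dividing twice the discriminant and
`m = ord_{s=1} L(C, s)`: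

1. for every `κ < m` the logarithmic averages of `log EP(n) - κ log log n` (hence these numbers
themselves) are unbounded above; if `L(C, s)` has a zero with `Re s > 1`, this holds for all `κ`;

2. if `L(C, s)` has no real zero greater than `1`, then for every `κ > m` these averages are
unbounded below; if moreover it has some zero with `Re s > 1`, this holds for all `κ`.

So an upper bound `EP(x) = O((log x) ^ κ)`, even in logarithmic average, implies the Riemann
hypothesis for `L(C, s)` and `ord_{s=1} L(C, s) ≤ κ`.

Proof: Landau's theorem on Dirichlet series with nonnegative coefficients, applied to the (averages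
of the) partial sums `∑_{p ≤ n} (κ / p - log (#C(𝔽_p) / p))`. The sharp bound for the numbers of
points is `weil_sharp` of the starting file `Pool/Agent/H341R2/WeilSharp.lean`.
-/

set_option autoImplicit false

open Filter

namespace Pool.Agent.Results.MP_696deb_nt.OneSidedProducts

open Pool.Agent.H438R3.BSD

/-- Let `C : y² = x³ + a x + b` be an elliptic curve over `ℚ` and `F` the entire function which
extends its (incomplete) `L`-series. Then `F` vanishes to a finite order `m` at `s = 1` and (1), (2)
of the introduction hold, for the products and for the logarithmic averages. -/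
theorem result (a b : ℤ) (_hab : 4 * a ^ 3 + 27 * b ^ 2 ≠ 0) (F : ℂ → ℂ) (hF : IsL a b F) :
    ∃ m : ℕ, analyticOrderAt F 1 = m ∧
    (∀ κ : ℝ, (κ < m ∨ ∃ ρ : ℂ, 1 < ρ.re ∧ F ρ = 0) → ∀ C : ℝ,
      (∃ᶠ x : ℕ in atTop, C < LA a b κ x) ∧
      ∃ᶠ x : ℕ in atTop, C * Real.log x ^ κ < EP a b x) ∧
    ((∀ σ : ℝ, 1 < σ → F σ ≠ 0) →
      ∀ κ : ℝ, ((m : ℝ) < κ ∨ ∃ ρ : ℂ, 1 < ρ.re ∧ F ρ = 0) → ∀ C : ℝ, 0 < C →
      (∃ᶠ x : ℕ in atTop, LA a b κ x < -C) ∧
      ∃ᶠ x : ℕ in atTop, EP a b x < C * Real.log x ^ κ) :=
  main hF

end Pool.Agent.Results.MP_696deb_nt.OneSidedProducts
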